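import Pool.Agent.Helper30_SkewP4.Stmts

/-!
# ANTI: the skew part (MP_d1c004_ag)
-/

set_option autoImplicit false

open scoped Matrix

namespace Pool.Agent.SkewP4.H68

variable {Λ : Type} [Ring Λ] [Algebra ℂ Λ] {M : Model Λ} {n : ℕ}

theorem two_smul_cancel {a : Λ} (h : (2 : ℂ) • a = 0) : a = 0 := by
  have := congrArg (fun x => (2 : ℂ)⁻¹ • x) h
  simpa [smul_smul] using this

theorem mgP (W : LamData M n) : MG M 0 0 W.P :=
  MG_one.sub (MG.mul (p := 0) (q := 0) (p' := 0) (q' := 0) W.Q_mem W.A_mem)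

theorem mgP' (W : LamData M n) : MG M 0 0 W.P' :=
  MG_one.sub (MG.mul (p := 0) (q := 0) (p' := 0) (q' := 0) W.A_mem W.Q_mem)

theorem mgq (W : LamData M n) : MG M 0 1 W.q := MG.map_d W.Q_mem

theorem mgF (W : LamData M n) : MG M 1 1 W.F := ((mgq W).mul W.D_mem).mul (mgP W)

theorem mgbe (W : LamData M n) : MG M 0 2 W.be := ((mgq W).mul W.A_mem).mul (mgq W)

theorem mgom (W : LamData M n) : MG M 2 0 W.om :=
  ((((mgP' W).mul W.D_mem).mul W.Q_mem).mul W.D_mem).mul (mgP W)

theorem mgY (W : LamData M n) : MG M 1 3 W.Y :=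
  ((mgF W).mul (mgbe W)).sub ((mgbe W).mul (mgF W).transpose)

/-- `tr P' = 2` -/
theorem trP' (W : LamData M n) : W.P'.trace = 2 := by
  have hA : Ev M W.A := MG.ev (p := 0) (q := 0) W.A_mem (by decide)
  rw [LamData.P', Matrix.trace_sub, hA.trace_mul_comm, W.trQA, Matrix.trace_one, Fintype.card_fin,
    map_sub, map_natCast, sub_sub_cancel]
  exact map_ofNat _ 2

theorem trP (W : LamData M n) : W.P.trace = 2 := by
  rw [LamData.P, Matrix.trace_sub, W.trQA, Matrix.trace_one, Fintype.card_fin,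
    map_sub, map_natCast, sub_sub_cancel]
  exact map_ofNat _ 2

theorem chi_mem (W : LamData M n) : W.chi ∈ M.G 3 1 :=
  MG.trace (((MG.mul (p := 0) (q := 0) W.pi_mem (mgom W)).mul (mgF W)))

theorem eps_evT (W : LamData M n) (B : Basic W) : Ev M W.epsᵀ := B.eveps.transpose

theorem ups_mem (W : LamData M n) : W.ups ∈ M.G 1 3 := by
  apply Submodule.smul_mem
  have h : MG M 0 0 W.epsᵀ := MG.transpose W.eps_mem
  exact MG.trace (MG.mul h (mgY W))

theorem piA (W : LamData M n) (B : Basic W) : W.pi * W.A = 0 := by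
  have h := congrArg Matrix.transpose W.A_pi
  rw [B.evA.transpose_mul, W.pi_skew, W.A_skew, neg_mul_neg, Matrix.transpose_zero] at h
  exact h

theorem ipi (W : LamData M n) : W.pi.map M.i = 0 := by
  ext a b
  simpa using M.i_zero 0 _ (W.pi_mem a b)

theorem i_chi (W : LamData M n) (B : Basic W) : M.i W.chi = 0 := by
  rw [LamData.chi, i_trace, (B.evpi.mul B.evom).map_i_mul, B.evpi.map_i_mul, ipi, B.iom, B.iF]
  simp

/-- `d om` -/
theorem dom (W : LamData M n) (B : Basic W) : W.om.map M.d =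
    -(W.A * (W.q * W.D * W.Q * W.D * W.P)) - W.P' * W.D * W.Q * W.D * W.q * W.A := by
  have e1 : W.om = W.P' * (W.D * (W.Q * (W.D * W.P))) := by
    rw [LamData.om]; simp only [Matrix.mul_assoc]
  have e2 : (W.D * W.P).map M.d = W.D * (W.q * W.A) := by
    rw [B.odD.map_d_mul, W.dD, B.dP]
    simp
  have e3 : (W.Q * (W.D * W.P)).map M.d = W.q * (W.D * W.P) + W.Q * (W.D * (W.q * W.A)) := by
    rw [B.evQ.map_d_mul, e2]; rfl
  have e4 : (W.D * (W.Q * (W.D * W.P))).map M.d =
      -(W.D * (W.q * (W.D * W.P) + W.Q * (W.D * (W.q * W.A)))) := by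
    rw [B.odD.map_d_mul, W.dD, e3]
    simp
  have e5 : W.P' * W.D * W.q * W.D * W.P = 0 := B.P'DqDP
  simp only [Matrix.mul_assoc] at e5
  rw [e1, B.evP'.map_d_mul, e4, B.dP']
  simp only [Matrix.mul_neg, Matrix.neg_mul, Matrix.mul_add, Matrix.mul_assoc, e5]
  abel

theorem d_chi (W : LamData M n) (B : Basic W) : M.d W.chi = 0 := by
  have h1 : W.pi.map M.d = 0 := W.dpi
  have h2 := piA W B
  have h3 := B.AF
  rw [LamData.chi, d_trace, (B.evpi.mul B.evom).map_d_mul, B.evpi.map_d_mul, h1, dom W B, B.dF]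
  have e1 : (0 * W.om + W.pi * (-(W.A * (W.q * W.D * W.Q * W.D * W.P)) -
      W.P' * W.D * W.Q * W.D * W.q * W.A)) * W.F = 0 := by
    rw [Matrix.zero_mul, zero_add, Matrix.mul_sub, Matrix.mul_neg, ← Matrix.mul_assoc W.pi W.A, h2,
      Matrix.zero_mul, neg_zero, zero_sub, Matrix.neg_mul]
    have : W.pi * (W.P' * W.D * W.Q * W.D * W.q * W.A) * W.F =
        W.pi * (W.P' * W.D * W.Q * W.D * W.q) * (W.A * W.F) := by
      simp only [Matrix.mul_assoc]
    rw [this, h3, Matrix.mul_zero, neg_zero]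
  rw [e1, zero_add, Matrix.mul_neg, Matrix.trace_neg]
  have e2 : (W.pi * W.om * (W.q * W.D * W.q * W.A)).trace = 0 := by
    rw [← Matrix.mul_assoc, ← B.evA.trace_mul_comm]
    have : W.A * (W.pi * W.om * (W.q * W.D * W.q)) = (W.A * W.pi) * (W.om * (W.q * W.D * W.q)) := by
      simp only [Matrix.mul_assoc]
    rw [this, W.A_pi]
    simp
  rw [e2, neg_zero]

theorem FTd (W : LamData M n) (B : Basic W) : Ev M W.Fᵀ := B.evF.transpose

/-- `Y = qDqAq + qAqDq` -/
theorem Y_eq (W : LamData M n) (B : Basic W) :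
    W.Y = W.q * W.D * W.q * W.A * W.q + W.q * W.A * W.q * W.D * W.q := by
  have h := B.AqA
  rw [LamData.Y, B.FT, LamData.be, LamData.F, LamData.P, LamData.P']
  have e1 : W.q * W.D * (1 - W.Q * W.A) * (W.q * W.A * W.q) =
      W.q * W.D * W.q * W.A * W.q - W.q * W.D * W.Q * (W.A * W.q * W.A) * W.q := by
    simp only [Matrix.mul_sub, Matrix.sub_mul, Matrix.mul_one, Matrix.mul_assoc]
  have e2 : W.q * W.A * W.q * -((1 - W.A * W.Q) * W.D * W.q) =
      -(W.q * W.A * W.q * W.D * W.q) + W.q * (W.A * W.q * W.A) * W.Q * W.D * W.q := by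
    simp only [Matrix.mul_neg, Matrix.mul_sub, Matrix.sub_mul, Matrix.one_mul, Matrix.mul_assoc]
    abel
  rw [e1, e2, h]
  simp

theorem YT (W : LamData M n) (B : Basic W) : W.Yᵀ = -W.Y := by
  rw [LamData.Y, Matrix.transpose_sub, B.evF.transpose_mul, B.evbe.transpose_mul,
    Matrix.transpose_transpose, B.beT]
  abel

theorem AY (W : LamData M n) (B : Basic W) : W.A * W.Y = 0 := by
  rw [LamData.Y, Matrix.mul_sub, ← Matrix.mul_assoc, ← Matrix.mul_assoc, B.AF, B.Abe]
  simp

theorem YA (W : LamData M n) (B : Basic W) : W.Y * W.A = 0 := by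
  rw [LamData.Y, Matrix.sub_mul, Matrix.mul_assoc, Matrix.mul_assoc, B.beA, B.FTA]
  simp

theorem Y_ups (W : LamData M n) (B : Basic W) (R : Rk W) : W.Y = W.ups • W.pi := by
  apply R.wedge2 _ (YT W B)
  · rw [LamData.P, Matrix.sub_mul, Matrix.one_mul, Matrix.mul_assoc, AY W B, Matrix.mul_zero,
      sub_zero]
  · rw [LamData.P', Matrix.mul_sub, Matrix.mul_one, ← Matrix.mul_assoc, YA W B, Matrix.zero_mul,
      sub_zero]

theorem smul_pi_zero (W : LamData M n) (B : Basic W) (R : Rk W) (c : Λ) (h : c • W.pi = 0) :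
    c = 0 := by
  have h1 := congrArg (fun X => (W.epsᵀ * X).trace) h
  simp only [Matrix.mul_zero, Matrix.trace_zero] at h1
  rw [mul_smul_od_ev (eps_evT W B), R.epsT_pi, trace_smul', trP'] at h1
  apply two_smul_cancel
  rw [← h1]
  rw [Algebra.smul_def, map_ofNat]
  exact (M.comm_even 2 c (map_ofNat _ 2)) 

theorem d_Y (W : LamData M n) (B : Basic W) : W.Y.map M.d = 0 := by
  have hq : W.q.map M.d = 0 := B.dq
  have c1 : (W.q * W.D).map M.d = 0 := by rw [B.odq.map_d_mul, hq, W.dD]; simp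
  have c2 : (W.q * W.D * W.q).map M.d = 0 := by
    rw [(B.odq.mul B.odD).map_d_mul, c1, hq]; simp
  have c3 : (W.q * W.D * W.q * W.A).map M.d = 0 := by
    rw [((B.odq.mul B.odD).mul_od B.odq).map_d_mul, c2, W.dA]; simp
  have c4 : (W.q * W.D * W.q * W.A * W.q).map M.d = 0 := by
    rw [(((B.odq.mul B.odD).mul_od B.odq).mul_ev B.evA).map_d_mul, c3, hq]; simp
  have b1 : (W.q * W.A).map M.d = 0 := by rw [B.odq.map_d_mul, hq, W.dA]; simp
  have b2 : (W.q * W.A * W.q).map M.d = 0 := by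
    rw [(B.odq.mul_ev B.evA).map_d_mul, b1, hq]; simp
  have b3 : (W.q * W.A * W.q * W.D).map M.d = 0 := by
    rw [((B.odq.mul_ev B.evA).mul B.odq).map_d_mul, b2, W.dD]; simp
  have b4 : (W.q * W.A * W.q * W.D * W.q).map M.d = 0 := by
    rw [(((B.odq.mul_ev B.evA).mul B.odq).mul_od B.odD).map_d_mul, b3, hq]; simp
  rw [Y_eq W B, map_d_add, c4, b4, add_zero]

theorem d_ups (W : LamData M n) (B : Basic W) (R : Rk W) : M.d W.ups = 0 := by
  apply smul_pi_zero W B R
  have h := d_Y W B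
  rw [Y_ups W B R, map_d_smul, W.dpi, smul_zero, add_zero] at h
  exact h

theorem i_ups (W : LamData M n) (B : Basic W) (R : Rk W) : M.i W.ups = 0 := by
  apply smul_pi_zero W B R
  have h : W.Y.map M.i = 0 := by
    rw [LamData.Y, map_i_sub, B.evF.map_i_mul, B.evbe.map_i_mul, map_i_transpose, B.iF, B.ibe]
    simp
  rw [Y_ups W B R, map_i_smul, ipi, smul_zero, add_zero] at h
  exact h

theorem T5 (W : LamData M n) (B : Basic W) (R : Rk W) : W.t3 - W.t3' = W.ups * W.chi := by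
  have hFT := FTd W B
  have hs : M.s W.ups = W.ups := s_even (ups_mem W) (by decide)
  -- the trace of X Y in two ways
  have e1 : ((W.om * W.F - W.Fᵀ * W.om) * W.Y).trace = (2 : ℂ) • (W.t3 - W.t3') := by
    have a1 : (W.om * W.F * (W.F * W.be)).trace = W.t3 := by
      rw [LamData.t3]
      have : W.om * W.F * (W.F * W.be) = (W.om * W.F * W.F) * W.be := by
        simp only [Matrix.mul_assoc]
      rw [this, ((B.evom.mul B.evF).mul B.evF).trace_mul_comm]
      simp only [Matrix.mul_assoc]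
    have a2 : (W.om * W.F * (W.be * W.Fᵀ)).trace = W.t3' := by
      rw [LamData.t3', (B.evom.mul B.evF).trace_mul_comm]
      simp only [Matrix.mul_assoc]
    have a3 : (W.Fᵀ * W.om * (W.F * W.be)).trace = W.t3' := by
      have : W.Fᵀ * W.om * (W.F * W.be) = (W.Fᵀ * W.om * W.F) * W.be := by
        simp only [Matrix.mul_assoc]
      rw [LamData.t3', this, ((hFT.mul B.evom).mul B.evF).trace_mul_comm]
      simp only [Matrix.mul_assoc]
    have a4 : (W.Fᵀ * W.om * (W.be * W.Fᵀ)).trace = W.t3 := by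
      rw [← Matrix.trace_transpose, (hFT.mul B.evom).transpose_mul, B.evbe.transpose_mul,
        hFT.transpose_mul, Matrix.transpose_transpose, B.omT, B.beT, LamData.t3]
      have : W.F * W.be * (W.om * W.F) = W.F * (W.be * W.om * W.F) := by
        simp only [Matrix.mul_assoc]
      rw [this, B.evF.trace_mul_comm]
    rw [LamData.Y, Matrix.sub_mul, Matrix.mul_sub, Matrix.mul_sub, Matrix.trace_sub,
      Matrix.trace_sub, Matrix.trace_sub, a1, a2, a3, a4, two_smul]
    abel
  have e2 : ((W.om * W.F - W.Fᵀ * W.om) * W.Y).trace = (2 : ℂ) • (W.ups * W.chi) := by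
    have a1 : (W.om * W.F * W.pi).trace = W.chi := by
      rw [LamData.chi, (B.evom.mul B.evF).trace_mul_comm, Matrix.mul_assoc]
    have a2 : (W.Fᵀ * W.om * W.pi).trace = -W.chi := by
      rw [← Matrix.trace_transpose, (hFT.mul B.evom).transpose_mul, hFT.transpose_mul,
        Matrix.transpose_transpose, B.omT, W.pi_skew, Matrix.neg_mul, Matrix.trace_neg,
        LamData.chi, Matrix.mul_assoc]
    rw [Y_ups W B R, mul_smul_ev hs, trace_smul', Matrix.sub_mul, Matrix.trace_sub, a1, a2,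
      two_smul, sub_neg_eq_add, mul_add]
  have h := e1.symm.trans e2
  have h2 : (2 : ℂ) • ((W.t3 - W.t3') - W.ups * W.chi) = 0 := by
    rw [smul_sub, h, sub_self]
  exact sub_eq_zero.mp (two_smul_cancel h2)

/-- ANTI -/
theorem anti (hB : BasicStmt) (hR : RkStmt) : AntiStmt := by
  intro Λ _ _ M n W hn
  have B := hB Λ M n W
  have R := hR Λ M n W hn
  exact ⟨chi_mem W, d_chi W B, i_chi W B, ups_mem W, d_ups W B R, i_ups W B R, T5 W B R⟩

end Pool.Agent.SkewP4.H68
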