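import Pool.Agent.Helper68_Skew.Anti

/-!
# CONTRA: the final contradiction of part I (MP_d1c004_ag)
-/

set_option autoImplicit false

open scoped Matrix

namespace Pool.Agent.SkewP4.H68

section alg

variable {R : Type*} [CommRing R]

theorem alg1 (k h de t t1 t2 FF FFF Ψ1 Ψ2 X3 f dm : R) (ht : 2 * t = k * h)
    (hFF : FF = t * t - 2 * de) (hFFF : FFF = t * FF - de * t) (T1 : t1 = FF + h * t - Ψ1)
    (T2 : t2 = FFF + h * FF - Ψ2) (T3 : 2 * t2 + h * t1 = X3) (E2 : de = f * (h * h) + dm) :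
    (k * (k + 1) * (k + 2) - 12 * (k + 2) * f) * (h * h * (h * h)) =
      4 * (h * (X3 + 2 * Ψ2 + h * Ψ1)) + 12 * (k + 2) * (h * h * dm) := by
  subst hFF hFFF T1 T2 T3
  have e : 4 * (2 * (t * (t * t - 2 * de) - de * t) + 3 * h * (t * t - 2 * de) + h * h * t) =
      (k * (k + 1) * (k + 2)) * (h * h * h) - 12 * (k + 2) * h * de := by
    have e1 : 4 * (t * t) = k * k * (h * h) := by linear_combination (2 * t + k * h) * ht
    have e2 : 8 * (t * t * t) = k * k * k * (h * h * h) := by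
      linear_combination (2 * t) * e1 + k * k * (h * h) * ht
    linear_combination e2 - 12 * de * ht + 3 * h * e1 + 2 * h * h * ht
  subst E2
  linear_combination (-h) * e

theorem alg2 (k h de t t1 t2 t3 t3' FF Ψ1 X3 X4 u f dm : R) (ht : 2 * t = k * h)
    (hFF : FF = t * t - 2 * de) (T1 : t1 = FF + h * t - Ψ1)
    (T3 : 2 * t2 + h * t1 = X3) (T4 : t3 + t3' + h * t2 = X4) (T5 : t3 - t3' = u)
    (h3 : t3 = t * t2 - de * t1) (E2 : de = f * (h * h) + dm) :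
    ((k + 1 + 4 * f) * (k * k + 2 * k - 8 * f)) * (h * h * (h * h)) =
      4 * ((k + 1) * (h * h * Ψ1)) + 16 * (de * Ψ1) + 4 * ((k + 1) * (h * X3)) - 8 * (X4 + u) -
      (4 * (k * k + 2 * k) - 8 * (k + 1)) * (h * h * dm) + 64 * (f * (h * h * dm)) +
        32 * (dm * dm) := by
  have a1 : 4 * t1 = (k * k + 2 * k) * (h * h) - 8 * de - 4 * Ψ1 := by
    have e1 : 4 * (t * t) = k * k * (h * h) := by linear_combination (2 * t + k * h) * ht
    subst T1 hFF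
    linear_combination e1 + 2 * h * ht
  have a2 : ((k + 1) * (h * h) + 4 * de) * t1 = -2 * (X4 + u) + (k + 1) * h * X3 := by
    have b1 : 2 * t3 + h * t2 = X4 + u := by linear_combination T4 + T5
    rw [h3] at b1
    linear_combination -2 * b1 + (k + 1) * h * T3 + 2 * t2 * ht
  have a3 : ((k + 1) * (h * h) + 4 * de) * ((k * k + 2 * k) * (h * h) - 8 * de) =
      4 * (((k + 1) * (h * h) + 4 * de) * Ψ1) + 4 * (-2 * (X4 + u) + (k + 1) * h * X3) := by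
    linear_combination 4 * a2 - ((k + 1) * (h * h) + 4 * de) * a1
  subst E2
  linear_combination a3

end alg

variable {Λ : Type} [Ring Λ] [Algebra ℂ Λ] {M : Model Λ} {n : ℕ}

/-- exact basic forms -/
def Bd (M : Model Λ) (p q : ℕ) (x : Λ) : Prop := ∃ y ∈ M.G p q, M.i y = 0 ∧ M.d y = x

theorem Bd.add {p q : ℕ} {x y : Λ} (hx : Bd M p q x) (hy : Bd M p q y) : Bd M p q (x + y) := by
  obtain ⟨a, ha, ia, rfl⟩ := hx
  obtain ⟨b, hb, ib, rfl⟩ := hy
  exact ⟨a + b, add_mem ha hb, by rw [map_add, ia, ib, add_zero], map_add _ _ _⟩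

theorem Bd.sub {p q : ℕ} {x y : Λ} (hx : Bd M p q x) (hy : Bd M p q y) : Bd M p q (x - y) := by
  obtain ⟨a, ha, ia, rfl⟩ := hx
  obtain ⟨b, hb, ib, rfl⟩ := hy
  exact ⟨a - b, sub_mem ha hb, by rw [map_sub, ia, ib, sub_zero], map_sub _ _ _⟩

theorem Bd.smul {p q : ℕ} {x : Λ} (c : ℂ) (hx : Bd M p q x) : Bd M p q (c • x) := by
  obtain ⟨a, ha, ia, rfl⟩ := hx
  exact ⟨c • a, Submodule.smul_mem _ _ ha, by rw [map_smul, ia, smul_zero], map_smul _ _ _⟩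

theorem Bd.cmul {p q : ℕ} {x : Λ} (c : ℂ) (hx : Bd M p q x) : Bd M p q (algebraMap ℂ Λ c * x) := by
  rw [← Algebra.smul_def]; exact hx.smul c

/-- closed basic even forms -/
structure Cb (M : Model Λ) (p q : ℕ) (a : Λ) : Prop where
  mem : a ∈ M.G p q
  s : M.s a = a
  d : M.d a = 0
  i : M.i a = 0

theorem Cb.mul {p q p' q' : ℕ} {a b : Λ} (ha : Cb M p q a) (hb : Cb M p' q' b) :
    Cb M (p + p') (q + q') (a * b) where
  mem := M.mul_mem _ _ _ _ _ _ ha.mem hb.mem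
  s := by rw [map_mul, ha.s, hb.s]
  d := by rw [M.d_mul, ha.d, hb.d, zero_mul, mul_zero, add_zero]
  i := by rw [M.i_mul, ha.i, hb.i, zero_mul, mul_zero, add_zero]

theorem Bd.mul {p q p' q' : ℕ} {a x : Λ} (ha : Cb M p q a) (hx : Bd M p' q' x) :
    Bd M (p + p') (q + q') (a * x) := by
  obtain ⟨y, hy, iy, rfl⟩ := hx
  refine ⟨a * y, M.mul_mem _ _ _ _ _ _ ha.mem hy, ?_, ?_⟩
  · rw [M.i_mul, ha.i, iy, zero_mul, mul_zero, add_zero]
  · rw [M.d_mul, ha.d, zero_mul, zero_add, ha.s]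

theorem Bd.cb {p q : ℕ} {x : Λ} (hx : Bd M p q x) (he : Even (p + (q + 1))) :
    Cb M p (q + 1) x := by
  obtain ⟨y, hy, iy, rfl⟩ := hx
  refine ⟨M.d_mem _ _ _ hy, s_even (M.d_mem _ _ _ hy) he, M.d_d y, ?_⟩
  have := M.d_i y
  rw [iy, map_zero] at this
  rw [← neg_eq_zero, ← this]

theorem inc_cb (f : S) : Cb M 0 0 (M.inc f) :=
  ⟨M.inc_mem f, s_even (M.inc_mem f) (by decide), M.d_inc f, M.i_zero 0 _ (M.inc_mem f)⟩

theorem cb_of {c : Λ} (g : S) (h : M.inc g = c) : Cb M 0 0 c := h ▸ inc_cb g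

theorem Bd.lm {p q : ℕ} {c x : Λ} (hc : Cb M 0 0 c) (hx : Bd M p q x) : Bd M p q (c * x) := by
  have := Bd.mul hc hx
  rwa [zero_add, zero_add] at this

theorem inc_C (c : ℂ) : M.inc (MvPolynomial.C c) = algebraMap ℂ Λ c := by
  rw [MvPolynomial.algHom_C]

theorem mem_center {a : Λ} (ha : M.s a = a) : a ∈ Subalgebra.center ℂ Λ := by
  rw [Subalgebra.mem_center_iff]
  intro b
  exact (M.comm_even a b ha).symm

theorem two_smul' (a : Λ) : (2 : ℂ) • a = 2 * a := by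
  rw [Algebra.smul_def, map_ofNat]

theorem mgDh (W : LamData M n) (Sc : Scal W) : MG M 1 0 W.Dh :=
  MG.sub W.D_mem (MG.smul (p := 1) (q := 0) (p' := 0) (q' := 0) Sc.al_mem W.A_mem)

theorem mgPsi (W : LamData M n) (Sc : Scal W) : MG M 2 1 W.Psi := by
  have h := mgDh W Sc
  exact ((((mgq W).mul W.A_mem).mul ((MG.mul W.Q_mem h).mul W.Q_mem)).mul W.D_mem).mul (mgP W)

theorem mgC0 (W : LamData M n) (Sc : Scal W) : MG M 3 0 W.C0 := by
  have h := mgDh W Sc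
  exact (((h.mul W.Q_mem).mul h).mul W.Q_mem).mul h

section main

variable (W : LamData M n) (B : Basic W) (Sc : Scal W) (Ps : PsiC W) (T : Tr W) (Rr : Rk W)
  (An : Anti W) (De : Del W)

include Ps Sc in
theorem bdPsi : Bd M 2 1 (M.d W.Psi.trace) :=
  ⟨_, (mgPsi W Sc).trace, by rw [i_trace, Ps.iPsi]; simp, rfl⟩

include B Ps Sc in
theorem bdPsiF : Bd M 3 2 (M.d (W.Psi * W.F).trace) :=
  ⟨_, ((mgPsi W Sc).mul (mgF W)).trace, by
    rw [i_trace, Ps.odPsi.map_i_mul, Ps.iPsi, B.iF]; simp, rfl⟩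

include B Ps Sc in
theorem bdX3 : Bd M 3 2 (M.d (W.be * W.C0).trace) :=
  ⟨_, ((mgbe W).mul (mgC0 W Sc)).trace, by
    rw [i_trace, B.evbe.map_i_mul, Ps.iC0, B.ibe]; simp, rfl⟩

include B Ps Sc in
theorem bdX4 : Bd M 4 3 (M.d (W.be * W.C0 * W.F).trace) :=
  ⟨_, (((mgbe W).mul (mgC0 W Sc)).mul (mgF W)).trace, by
    rw [i_trace, (B.evbe.mul_od Ps.odC0).map_i_mul, B.evbe.map_i_mul, Ps.iC0, B.ibe, B.iF]
    simp, rfl⟩

include Sc in
theorem cb_h : Cb M 1 1 W.h := ⟨Sc.h_mem, Sc.s_h, Sc.dh, Sc.ih⟩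

include De in
theorem cb_de : Cb M 2 2 W.de := ⟨De.de_mem, s_even De.de_mem (by decide), De.d_de, De.i_de⟩

theorem tr_FF : (W.F * W.F).trace = W.t * W.t - 2 * W.de := by
  rw [LamData.de, mul_smul_comm, ← two_smul', smul_smul]
  norm_num

include Rr B De in
theorem tr_FFF : (W.F * W.F * W.F).trace = W.t * (W.F * W.F).trace - W.de * W.t := by
  have hd := (cb_de W De).s
  rw [B.evF.mul B.evF |>.trace_mul_comm]
  conv_lhs => rw [Rr.CH]
  have ht : M.s W.t = W.t := B.evF.trace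
  rw [Matrix.mul_sub, mul_smul_ev ht, mul_smul_ev hd, Matrix.trace_sub, trace_smul', trace_smul',
    B.FP]
  rfl

include Rr B De in
theorem t3_eq : W.t3 = W.t * W.t2 - W.de * W.t1 := by
  have hd := (cb_de W De).s
  have ht : M.s W.t = W.t := B.evF.trace
  rw [LamData.t3, Matrix.mul_assoc (W.be * W.om), Rr.CH, Matrix.mul_sub, mul_smul_ev ht,
    mul_smul_ev hd, Matrix.trace_sub, trace_smul', trace_smul', Matrix.mul_assoc W.be W.om W.P,
    B.omP]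
  rfl

end main

/-- the coefficient of `f` -/
theorem final_num (κ c : ℂ) (m : ℕ) (hm : κ = (m : ℂ) + 1)
    (h1 : κ * (κ + 1) * (κ + 2) - 12 * (κ + 2) * c = 0)
    (h2 : (κ + 1 + 4 * c) * (κ * κ + 2 * κ - 8 * c) = 0) : False := by
  have e0 : κ + 2 ≠ 0 := by
    rw [hm]; exact_mod_cast (Nat.succ_ne_zero (m + 2))
  have e1 : 12 * c = κ * (κ + 1) := by
    apply mul_left_cancel₀ e0
    linear_combination -h1
  have e2 : (κ + 1) * (κ + 3) * (κ * (κ + 4)) = 0 := by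
    linear_combination 9 * h2 -
      (κ * κ + 2 * κ - 8 * c) * 3 * e1 + 2 * ((κ + 1) * (κ + 3)) * e1
  rw [hm] at e2
  have e3 : ((m + 1 + 1) * (m + 1 + 3) * ((m + 1) * (m + 1 + 4)) : ℕ) ≠ 0 := by positivity
  apply e3
  exact_mod_cast e2

/-- CONTRA -/
theorem contra (hB : BasicStmt) (hSc : ScalStmt) (hPs : PsiStmt) (hT : TrStmt) (hR : RkStmt)
    (hAn : AntiStmt) (hDe : DelStmt) (h1 : E1Stmt) (h2 : E2Stmt) (h3 : E3Stmt) : ContraStmt := by
  intro Λ _ _ M n W hn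
  have B := hB Λ M n W
  have Sc := hSc Λ M n W hn
  have Ps := hPs Λ M n W hn
  have T := hT Λ M n W hn
  have Rr := hR Λ M n W hn
  have An := hAn Λ M n W hn
  have De := hDe Λ M n W hn
  obtain ⟨f, m, hm, im, hde⟩ := h2 Λ M W.al Sc.al_mem Sc.i_al W.de De.de_mem De.d_de De.i_de
  obtain ⟨z, hz, iz, hzc⟩ := h1 Λ M W.chi An.chi_mem An.d_chi An.i_chi
  have E3 := h3 Λ M W.al Sc.al_mem Sc.i_al
  change W.de = M.inc f * (W.h * W.h) + M.d m at hde
  -- even elements are central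
  have ch := cb_h W Sc
  have cde := cb_de W De
  have cf := inc_cb (M := M) f
  have bdm : Bd M 2 1 (M.d m) := ⟨m, hm, im, rfl⟩
  have cdm : Cb M 2 2 (M.d m) := bdm.cb (by decide)
  have bP1 := bdPsi W Sc Ps
  have cP1 : Cb M 2 2 (M.d W.Psi.trace) := bP1.cb (by decide)
  have bP2 := bdPsiF W B Sc Ps
  have cP2 : Cb M 3 3 (M.d (W.Psi * W.F).trace) := bP2.cb (by decide)
  have b3 := bdX3 W B Sc Ps
  have c3 : Cb M 3 3 (M.d (W.be * W.C0).trace) := b3.cb (by decide)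
  have b4 := bdX4 W B Sc Ps
  have c4 : Cb M 4 4 (M.d (W.be * W.C0 * W.F).trace) := b4.cb (by decide)
  have su : M.s W.ups = W.ups := s_even An.ups_mem (by decide)
  have cups : Cb M 1 3 W.ups := ⟨An.ups_mem, su, An.d_ups, An.i_ups⟩
  have bu : Bd M 4 3 (W.ups * W.chi) := Bd.mul (p := 1) (q := 3) cups (p' := 3) (q' := 0) ⟨z, hz, iz, hzc⟩
  have cu : Cb M 4 4 (W.ups * W.chi) := bu.cb (by decide)
  have st : M.s W.t = W.t := B.evF.trace
  have st1 : M.s W.t1 = W.t1 := (B.evbe.mul B.evom).trace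
  have st2 : M.s W.t2 = W.t2 := ((B.evbe.mul B.evom).mul B.evF).trace
  have st3 : M.s W.t3 = W.t3 := (((B.evbe.mul B.evom).mul B.evF).mul B.evF).trace
  have st3' : M.s W.t3' = W.t3' :=
    (((B.evbe.mul B.evF.transpose).mul B.evom).mul B.evF).trace
  have sFF : M.s (W.F * W.F).trace = (W.F * W.F).trace := (B.evF.mul B.evF).trace
  have sFFF : M.s (W.F * W.F * W.F).trace = (W.F * W.F * W.F).trace :=
    ((B.evF.mul B.evF).mul B.evF).trace
  let κ : ℂ := (n : ℂ) - 2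
  have ht : 2 * W.t = algebraMap ℂ Λ κ * W.h := by
    rw [← two_smul', ← Algebra.smul_def, Sc.t_eq, smul_smul]
    congr 1
    show 2 * (((n : ℂ) - 2) / 2) = (n : ℂ) - 2
    ring
  have hT3 : 2 * W.t2 + W.h * W.t1 = M.d (W.be * W.C0).trace := by
    rw [← two_smul']; exact T.T3
  let Z := Subalgebra.center ℂ Λ
  let e : ∀ a : Λ, M.s a = a → Z := fun a ha => ⟨a, mem_center ha⟩
  have A1 := congrArg Subtype.val (alg1 (R := Z) (algebraMap ℂ Z κ) (e W.h ch.s) (e W.de cde.s)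
    (e W.t st) (e W.t1 st1) (e W.t2 st2) (e _ sFF) (e _ sFFF) (e _ cP1.s) (e _ cP2.s) (e _ c3.s)
    (e _ cf.s) (e _ cdm.s) (Subtype.ext ht) (Subtype.ext (tr_FF W))
    (Subtype.ext (tr_FFF W B Rr De)) (Subtype.ext T.T1) (Subtype.ext T.T2) (Subtype.ext hT3)
    (Subtype.ext hde))
  have A2 := congrArg Subtype.val (alg2 (R := Z) (algebraMap ℂ Z κ) (e W.h ch.s) (e W.de cde.s)
    (e W.t st) (e W.t1 st1) (e W.t2 st2) (e W.t3 st3) (e W.t3' st3') (e _ sFF) (e _ cP1.s)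
    (e _ c3.s) (e _ c4.s) (e _ cu.s)
    (e _ cf.s) (e _ cdm.s) (Subtype.ext ht) (Subtype.ext (tr_FF W))
    (Subtype.ext T.T1) (Subtype.ext hT3) (Subtype.ext T.T4) (Subtype.ext An.T5)
    (Subtype.ext (t3_eq W B Rr De)) (Subtype.ext hde))
  have chh : Cb M 2 2 (W.h * W.h) := ch.mul ch
  have A1' : (algebraMap ℂ Λ κ * (algebraMap ℂ Λ κ + 1) * (algebraMap ℂ Λ κ + 2) -
      12 * (algebraMap ℂ Λ κ + 2) * M.inc f) * (W.h * W.h * (W.h * W.h)) =
      4 * (W.h * (M.d (W.be * W.C0).trace + 2 * M.d (W.Psi * W.F).trace +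
        W.h * M.d W.Psi.trace)) + 12 * (algebraMap ℂ Λ κ + 2) * (W.h * W.h * M.d m) := A1
  have A2' : ((algebraMap ℂ Λ κ + 1 + 4 * M.inc f) * (algebraMap ℂ Λ κ * algebraMap ℂ Λ κ +
      2 * algebraMap ℂ Λ κ - 8 * M.inc f)) * (W.h * W.h * (W.h * W.h)) =
      4 * ((algebraMap ℂ Λ κ + 1) * (W.h * W.h * M.d W.Psi.trace)) +
      16 * (W.de * M.d W.Psi.trace) +
      4 * ((algebraMap ℂ Λ κ + 1) * (W.h * M.d (W.be * W.C0).trace)) -
      8 * (M.d (W.be * W.C0 * W.F).trace + W.ups * W.chi) -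
      (4 * (algebraMap ℂ Λ κ * algebraMap ℂ Λ κ + 2 * algebraMap ℂ Λ κ) -
        8 * (algebraMap ℂ Λ κ + 1)) * (W.h * W.h * M.d m) +
      64 * (M.inc f * (W.h * W.h * M.d m)) + 32 * (M.d m * M.d m) := A2
  have k1 : M.inc (MvPolynomial.C κ) = algebraMap ℂ Λ κ := inc_C κ
  have B1 : Bd M 4 3 (4 * (W.h * (M.d (W.be * W.C0).trace + 2 * M.d (W.Psi * W.F).trace +
        W.h * M.d W.Psi.trace)) + 12 * (algebraMap ℂ Λ κ + 2) * (W.h * W.h * M.d m)) := by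
    refine Bd.add (Bd.lm (cb_of 4 (map_ofNat _ 4)) ?_) (Bd.lm (cb_of (12 * (MvPolynomial.C κ + 2)) ?_) ?_)
    · refine Bd.mul (p := 1) (q := 1) ch (p' := 3) (q' := 2) ?_
      refine Bd.add (Bd.add b3 (Bd.lm (cb_of 2 (map_ofNat _ 2)) bP2)) ?_
      exact Bd.mul (p := 1) (q := 1) ch (p' := 2) (q' := 1) bP1
    · rw [map_mul, map_add, k1, map_ofNat, map_ofNat]
    · exact Bd.mul (p := 2) (q := 2) chh (p' := 2) (q' := 1) bdm
  have B2 : Bd M 4 3 (4 * ((algebraMap ℂ Λ κ + 1) * (W.h * W.h * M.d W.Psi.trace)) +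
      16 * (W.de * M.d W.Psi.trace) +
      4 * ((algebraMap ℂ Λ κ + 1) * (W.h * M.d (W.be * W.C0).trace)) -
      8 * (M.d (W.be * W.C0 * W.F).trace + W.ups * W.chi) -
      (4 * (algebraMap ℂ Λ κ * algebraMap ℂ Λ κ + 2 * algebraMap ℂ Λ κ) -
        8 * (algebraMap ℂ Λ κ + 1)) * (W.h * W.h * M.d m) +
      64 * (M.inc f * (W.h * W.h * M.d m)) + 32 * (M.d m * M.d m)) := by
    have c1 : Cb M 0 0 (algebraMap ℂ Λ κ + 1) :=
      cb_of (MvPolynomial.C κ + 1) (by rw [map_add, k1, map_one])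
    have bm := Bd.mul (p := 2) (q := 2) chh (p' := 2) (q' := 1) bdm
    refine Bd.add (Bd.add (Bd.sub (Bd.sub (Bd.add (Bd.add ?_ ?_) ?_) ?_) ?_) ?_) ?_
    · exact Bd.lm (cb_of 4 (map_ofNat _ 4)) (Bd.lm c1
        (Bd.mul (p := 2) (q := 2) chh (p' := 2) (q' := 1) bP1))
    · exact Bd.lm (cb_of 16 (map_ofNat _ 16)) (Bd.mul (p := 2) (q := 2) cde (p' := 2) (q' := 1) bP1)
    · exact Bd.lm (cb_of 4 (map_ofNat _ 4)) (Bd.lm c1
        (Bd.mul (p := 1) (q := 1) ch (p' := 3) (q' := 2) b3))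
    · exact Bd.lm (cb_of 8 (map_ofNat _ 8)) (b4.add bu)
    · refine Bd.lm (cb_of (4 * (MvPolynomial.C κ * MvPolynomial.C κ + 2 * MvPolynomial.C κ) -
        8 * (MvPolynomial.C κ + 1)) ?_) bm
      rw [map_sub, map_mul, map_mul, map_add, map_add, map_mul, map_mul, k1, map_ofNat, map_ofNat,
        map_ofNat, map_one]
    · exact Bd.lm (cb_of 64 (map_ofNat _ 64)) (Bd.lm cf bm)
    · exact Bd.lm (cb_of 32 (map_ofNat _ 32))
        (Bd.mul (p := 2) (q := 2) cdm (p' := 2) (q' := 1) bdm)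
  obtain ⟨x1, hx1, ix1, dx1⟩ := B1
  obtain ⟨x2, hx2, ix2, dx2⟩ := B2
  have R1 := E3 (MvPolynomial.C κ * (MvPolynomial.C κ + 1) * (MvPolynomial.C κ + 2) -
    12 * (MvPolynomial.C κ + 2) * f) x1 hx1 ix1 (by
      rw [dx1, ← A1']
      simp only [map_sub, map_mul, map_add, k1, map_one, map_ofNat]
      rfl)
  have R2 := E3 ((MvPolynomial.C κ + 1 + 4 * f) * (MvPolynomial.C κ * MvPolynomial.C κ +
    2 * MvPolynomial.C κ - 8 * f)) x2 hx2 ix2 (by
      rw [dx2, ← A2']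
      simp only [map_sub, map_mul, map_add, k1, map_one, map_ofNat]
      rfl)
  simp only [map_sub, map_mul, map_add, MvPolynomial.constantCoeff_C, map_one, map_ofNat] at R1 R2
  obtain ⟨j, rfl⟩ : ∃ j, n = j + 3 := ⟨n - 3, by omega⟩
  exact final_num κ _ j (by show ((j + 3 : ℕ) : ℂ) - 2 = j + 1; push_cast; ring) R1 R2

end Pool.Agent.SkewP4.H68
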